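import Pool.Agent.H92.FM1

open MeasureTheory Filter Pool.Agent.H92.FM Polynomial

namespace Pool.Agent.Results.MP_831e37_an.VagueNull

/-- In every dimension there are Fourier transformable measures tending vaguely to zero whose
transforms tend vaguely to a nonzero measure. -/
theorem result (d : ℕ) (hd : 1 ≤ d) : ∃ (ν η : ℕ → CM d) (μ : CM d), (∀ n, IsFT (ν n) (η n)) ∧
    (∃ f, Cc f ∧ μ.ev f ≠ 0) ∧ ∀ f, Cc f → Tendsto (fun n => (ν n).ev f) atTop (nhds 0) ∧
      Tendsto (fun n => (η n).ev f) atTop (nhds (μ.ev f)) := by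
  let e : E d := EuclideanSpace.single ⟨0, hd⟩ 1
  have ne : ‖e‖ = 1 := by simp [e]
  have ex : ∀ n : ℕ, ∃ K : ℕ, 0 < K ∧ ∀ w : ℂ, ‖w‖ ≤ 1 / 2 →
      ‖1 - (1 - w ^ K) ^ (16 * (n + 1) ^ 2)‖ ≤ 1 / ((n : ℝ) + 1) := fun n => by
    have c : ContinuousAt (fun u : ℂ => 1 - (1 - u) ^ (16 * (n + 1) ^ 2)) 0 := by fun_prop
    obtain ⟨δ, d0, h⟩ := Metric.continuousAt_iff.mp c _ (Nat.one_div_pos_of_nat (n := n))
    obtain ⟨K, hK⟩ := exists_pow_lt_of_lt_one d0 (show (1 / 2 : ℝ) < 1 by norm_num)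
    refine ⟨K + 1, K.succ_pos, fun w hw => ?_⟩
    have : dist (w ^ (K + 1)) 0 < δ := by
      rw [dist_zero_right, norm_pow]
      exact ((pow_le_pow_left₀ (norm_nonneg _) hw _).trans
        (pow_le_pow_of_le_one (by norm_num) (by norm_num) K.le_succ)).trans_lt hK
    simpa using (h this).le
  choose K K0 hK using ex
  let p : ℕ → ℂ[X] := fun n => 1 - (1 - (1 - X) ^ K n) ^ (16 * (n + 1) ^ 2)
  let h : ℕ → ℝ := fun n => 1 / (16 * ((n : ℝ) + 1))
  have h0 : ∀ n, 0 < h n := fun n => by positivity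
  let ξ : ℕ → ℕ → E d := fun n j => (j : ℝ) • h n • e
  have nξ : ∀ n j, ‖ξ n j‖ = j * h n := fun n j => by
    simp only [ξ, norm_smul, ne, mul_one, Real.norm_natCast, Real.norm_of_nonneg (h0 n).le]
  let c : ℕ → E d → ℂ := fun n x => (p n).coeff ⌊‖x‖ / h n⌋₊
  have hc : ∀ n j, c n (ξ n j) = (p n).coeff j := fun n j => by
    simp only [c, nξ, mul_div_cancel_right₀ _ (h0 n).ne', Nat.floor_natCast]
  let s : ℕ → Finset ℕ := fun n => Finset.range ((p n).natDegree + 1)
  have tpe : ∀ n x, tp (s n) (ξ n) (c n) x = (p n).eval (ch (h n • e) x) := fun n x => by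
    rw [eval_eq_sum_range]
    exact Finset.sum_congr rfl fun j _ => by rw [hc, ch_smul]
  refine ⟨fun n => trig (s n) (ξ n) (c n), fun n => disc (s n) (ξ n) (c n),
    disc {0} (fun _ => 0) 1, fun n => isFT _ _ _, ?_, fun f hf => ?_⟩
  · let b : ContDiffBump (0 : E d) := ⟨1, 2, one_pos, one_lt_two⟩
    refine ⟨fun x => (b x : ℂ), ⟨Complex.continuous_ofReal.comp b.continuous,
      b.hasCompactSupport.comp_left (g := fun t : ℝ => (t : ℂ)) rfl⟩, ?_⟩
    simp [ev_disc, b.one_of_mem_closedBall (Metric.mem_closedBall_self zero_le_one)]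
  obtain ⟨R, hR⟩ := hf.2.isCompact.isBounded.subset_ball 0
  have z : ∀ x, R ≤ ‖x‖ → f x = 0 := fun x hx => image_eq_zero_of_notMem_tsupport fun h' => by
    have := hR h'; rw [mem_ball_zero_iff] at this; linarith
  have ev : ∀ᶠ n : ℕ in atTop, R ≤ (n : ℝ) + 1 :=
    (tendsto_atTop_add_const_right _ 1 tendsto_natCast_atTop_atTop).eventually_ge_atTop R
  constructor
  · refine squeeze_zero_norm' (a := fun n : ℕ => (∫ x, ‖f x‖) * (1 / ((n : ℝ) + 1))) ?_
      (by simpa using tendsto_one_div_add_atTop_nhds_zero_nat.const_mul (∫ x, ‖f x‖))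
    filter_upwards [ev] with n hn
    rw [← integral_mul_const]
    refine norm_integral_le_of_norm_le (hf.int.norm.mul_const _) (.of_forall fun x => ?_)
    rcases le_total R ‖x‖ with hx | hx
    · simp [z x hx]
    rw [norm_mul]
    refine mul_le_mul_of_nonneg_left ?_ (norm_nonneg _)
    show ‖tp (s n) (ξ n) (c n) x‖ ≤ _
    rw [tpe]
    simp only [p, eval_sub, eval_one, eval_pow, eval_X]
    refine hK n _ ?_
    have a1 : |inner ℝ (h n • e) x| ≤ 1 / 16 := by
      refine (abs_real_inner_le_norm _ _).trans ?_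
      rw [norm_smul, ne, mul_one, Real.norm_of_nonneg (h0 n).le]
      simp only [h]
      rw [div_mul_eq_mul_div, div_le_div_iff₀ (by positivity) (by norm_num)]
      linarith
    have a2 := Real.norm_exp_I_mul_ofReal_sub_one_le (x := 2 * Real.pi * inner ℝ (h n • e) x)
    rw [norm_sub_rev, ch, show 2 * (Real.pi : ℂ) * Complex.I * (inner ℝ (h n • e) x : ℝ) =
      Complex.I * (2 * Real.pi * inner ℝ (h n • e) x : ℝ) by push_cast; ring]
    refine a2.trans ?_
    rw [Real.norm_eq_abs, abs_mul, abs_of_pos Real.two_pi_pos]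
    nlinarith [Real.pi_le_four, Real.pi_pos, abs_nonneg (inner ℝ (h n • e) x)]
  · refine tendsto_const_nhds.congr' ?_
    filter_upwards [ev] with n hn
    have dv : X ^ (16 * (n + 1) ^ 2) ∣ (1 - (1 - X) ^ K n : ℂ[X]) ^ (16 * (n + 1) ^ 2) :=
      pow_dvd_pow_of_dvd (X_dvd_iff.mpr (by
        rw [coeff_zero_eq_eval_zero]; simp)) _
    rw [X_pow_dvd_iff] at dv
    rw [ev_disc, ev_disc, Finset.sum_eq_single 0 (s := s n) _ (by simp [s])]
    · rw [hc]; simp [p, ξ, dv 0 (by positivity)]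
    intro j _ hj
    rcases lt_or_ge j (16 * (n + 1) ^ 2) with h1 | h1
    · rw [hc]; simp [p, dv j h1, coeff_one, hj]
    · rw [z _ (hn.trans ?_), zero_mul]
      have : (16 * ((n : ℝ) + 1) ^ 2) ≤ j := by exact_mod_cast h1
      rw [nξ]
      simp only [h]
      rw [mul_one_div, le_div_iff₀ (by positivity)]
      linarith

end Pool.Agent.Results.MP_831e37_an.VagueNull
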